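import Mathlib
import Pool.Agent.X34.E.E37
import Pool.Agent.X34.E.E4

set_option autoImplicit false

/-!
# Goldbach representations with a prime followed by a bounded gap and a prime with an index in a given set

The problem asks for `2 n = p + q` with primes `p`, `q` and a prime index `π(q)`. Here `p` is moreover followed by a
bounded gap (and lies in a given residue class), the index of `q` lies in an arbitrary set `I` with at least
`t / (log t)^B` elements up to `t` (for instance the primes, or the iterated prime-indexed primes), and `q` is at most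
`(log x)^45 (log log x)^(B + 3)`.

Proof: the count of the right order for 45 forms (engine E of helper34, files `Pool.Agent.X34.E`, which uses the starting
library's theorem for 45 forms) and the argument of Romanoff, with the moments of the singular series over the
differences of a fairly dense set (starting library, `Pool.Agent.TH685.TI`, here for 45 shifts).
-/

namespace Pool.Agent.Results.MP_5d7b92_nt.BoundedGapsIndexSets

/-- `p` and `p + h` are consecutive primes -/
def Consecutive (p h : ℕ) : Prop := p.Prime ∧ (p + h).Prime ∧ ∀ m : ℕ, p < m → m < p + h → ¬ m.Prime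

/-- the number of the elements of `I` in `[1, t]` -/
noncomputable def count (I : Set ℕ) (t : ℕ) : ℕ := Set.ncard {k : ℕ | 1 ≤ k ∧ k ≤ t ∧ k ∈ I}

/-- the number of the `n`, `2 < n ≤ x`, for which there is a prime `q < 2 n` with `π(q) ∈ I`, `q ≤ z`, such that
`2 n - q` is a prime `≡ a (mod M)` followed by the next prime at a distance `h M`, `1 ≤ h ≤ 106` -/
noncomputable def represented (M a : ℕ) (I : Set ℕ) (z : ℝ) (x : ℕ) : ℕ :=
  Set.ncard {n : ℕ | 2 < n ∧ n ≤ x ∧ ∃ q : ℕ, q.Prime ∧ q < 2 * n ∧ Nat.primeCounting q ∈ I ∧ (q : ℝ) ≤ z ∧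
    2 * n - q ≡ a [MOD M] ∧ ∃ h : ℕ, 1 ≤ h ∧ h ≤ 106 ∧ Consecutive (2 * n - q) (h * M)}

/-- Let `M` be even and `a` prime to `M` (for instance `M = 2`, `a = 1`). There is `e` such that: if `I` has at least
`t / (log t)^B` elements in `[1, t]` for all large `t`, then for some `c > 0` and all large `x` at least
`c x / (log log log log x)^e` of the `n ≤ x` are such that `2 n = p + q` with primes `p`, `q`, `π(q) ∈ I`,
`q ≤ (log x)^45 (log log x)^(B + 3)`, `p ≡ a (mod M)`, and the next prime after `p` is `p + h M` with `1 ≤ h ≤ 106`. -/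
theorem result : ∀ M a : ℕ, 0 < M → 2 ∣ M → a.Coprime M → ∃ e : ℕ, ∀ (B : ℕ) (I : Set ℕ),
    (∀ᶠ t : ℕ in Filter.atTop, (t : ℝ) / Real.log t ^ B ≤ count I t) →
    ∃ c : ℝ, 0 < c ∧ ∀ᶠ x : ℕ in Filter.atTop,
      c * x / Real.log (Real.log (Real.log (Real.log x))) ^ e ≤
        represented M a I (Real.log x ^ 45 * Real.log (Real.log x) ^ (B + 3)) x := by
  classical
  intro M a hM h2 ha
  have hE := Pool.Agent.X34.E.dhl45R
  obtain ⟨e, h⟩ := Pool.Agent.X34.E.sums_set hE M a hM ha h2
  have hcnt : ∀ (K : Set ℕ) (t : ℕ), Pool.Agent.X34.E.cntK K t = count K t := by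
    intro K t
    unfold Pool.Agent.X34.E.cntK count
    rw [← Set.ncard_coe_finset]
    congr 1
    ext m
    simp only [Finset.coe_filter, Finset.mem_Icc, Set.mem_ofPred_eq, and_assoc]
  refine ⟨e, fun B I hI => ?_⟩
  have hI' : Pool.Agent.X34.E.Dense B I := by
    unfold Pool.Agent.X34.E.Dense
    simp only [hcnt]
    exact hI
  obtain ⟨K, hK⟩ : ∃ K : Set ℕ, K = {p : ℕ | p.Prime ∧ p ≠ 2 ∧ Nat.primeCounting p ∈ I} := ⟨_, rfl⟩
  have hd := hI'.index
  rw [← hK] at hd
  obtain ⟨c, hc, h1⟩ := h (B + 2) K hd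
  refine ⟨c / 2, by positivity, ?_⟩
  have t4 : Filter.Tendsto (fun N : ℕ => Real.log (Real.log (Real.log (Real.log (N : ℝ))))) Filter.atTop
      Filter.atTop :=
    Real.tendsto_log_atTop.comp (Real.tendsto_log_atTop.comp (Real.tendsto_log_atTop.comp
      (Real.tendsto_log_atTop.comp tendsto_natCast_atTop_atTop)))
  have hpow := Pool.Agent.W123.RU.logpow_le e (8 / c) (by positivity)
  have tl : Filter.Tendsto (fun N : ℕ => Real.log (N : ℝ)) Filter.atTop Filter.atTop :=
    Real.tendsto_log_atTop.comp tendsto_natCast_atTop_atTop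
  have tl2 : Filter.Tendsto (fun N : ℕ => Real.log (Real.log (N : ℝ))) Filter.atTop Filter.atTop :=
    Real.tendsto_log_atTop.comp tl
  have tl3 : Filter.Tendsto (fun N : ℕ => Real.log (Real.log (Real.log (N : ℝ)))) Filter.atTop Filter.atTop :=
    Real.tendsto_log_atTop.comp tl2
  filter_upwards [h1, t4.eventually_ge_atTop 1, hpow, tl.eventually_ge_atTop 1, tl2.eventually_ge_atTop 1,
    tl3.eventually_ge_atTop 1, Filter.eventually_ge_atTop 6] with x hx h4 hp hl1 hl2 hl3 hx6
  obtain ⟨S, hS⟩ : ∃ S : Finset ℕ, S = (Finset.Icc 1 x).filter (fun N => ∃ p m : ℕ, p + m = N ∧ 1 ≤ m ∧ m ∈ K ∧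
    (m : ℝ) ≤ Real.log x ^ 45 * Real.log (Real.log x) ^ (B + 2 + 1) ∧
    ∃ h : ℕ, 1 ≤ h ∧ h ≤ 106 ∧ Pool.Agent.X34.E.Follow M a (h * M) p) := ⟨_, rfl⟩
  rw [← hS] at hx
  -- at most four elements are small
  have hbig : (4 : ℝ) ≤ c / 2 * x / Real.log (Real.log (Real.log (Real.log x))) ^ e := by
    rw [le_div_iff₀ (by positivity)]
    have h5 : Real.log (Real.log (Real.log (Real.log x))) ≤ Real.log x := by
      have k1 := Real.log_le_sub_one_of_pos (by linarith : (0 : ℝ) < Real.log (Real.log (Real.log x)))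
      have k2 := Real.log_le_sub_one_of_pos (by linarith : (0 : ℝ) < Real.log (Real.log x))
      have k3 := Real.log_le_sub_one_of_pos (by linarith : (0 : ℝ) < Real.log x)
      linarith
    have h6 : Real.log (Real.log (Real.log (Real.log x))) ^ e ≤ Real.log x ^ e :=
      pow_le_pow_left₀ (by linarith) h5 e
    have h7 : 8 / c * Real.log (Real.log (Real.log (Real.log x))) ^ e ≤ x :=
      (mul_le_mul_of_nonneg_left h6 (by positivity)).trans hp
    rw [div_mul_eq_mul_div, div_le_iff₀ hc] at h7
    linarith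
  have hcard : S.card ≤ ((S.filter (fun N => 5 ≤ N)).card) + 4 := by
    have h5 : S ⊆ (S.filter (fun N => 5 ≤ N)) ∪ Finset.Icc 1 4 := by
      intro N hN
      rw [Finset.mem_union]
      by_cases h6 : 5 ≤ N
      · left
        exact Finset.mem_filter.2 ⟨hN, h6⟩
      · right
        have h7 := hN
        rw [hS, Finset.mem_filter, Finset.mem_Icc] at h7
        rw [Finset.mem_Icc]
        omega
    exact (Finset.card_le_card h5).trans ((Finset.card_union_le _ _).trans (by simp))
  have hcardr : (S.card : ℝ) ≤ ((S.filter (fun N => 5 ≤ N)).card : ℝ) + 4 := by exact_mod_cast hcard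
  have hle : c / 2 * x / Real.log (Real.log (Real.log (Real.log x))) ^ e ≤
      ((S.filter (fun N => 5 ≤ N)).card : ℝ) := by
    have e1 : c * x / Real.log (Real.log (Real.log (Real.log x))) ^ e =
        c / 2 * x / Real.log (Real.log (Real.log (Real.log x))) ^ e +
        c / 2 * x / Real.log (Real.log (Real.log (Real.log x))) ^ e := by ring
    linarith
  refine hle.trans ?_
  unfold represented
  rw [Nat.cast_le, ← Set.ncard_coe_finset]
  refine Set.ncard_le_ncard_of_injOn (fun N => N / 2) ?_ ?_ ?_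
  · intro N hN
    rw [Finset.mem_coe, Finset.mem_filter, hS, Finset.mem_filter, Finset.mem_Icc] at hN
    obtain ⟨⟨⟨h5, h6⟩, p, q, h7, h8, h9, h10, k, hk1, hk2, h11, h12, h13, h14⟩, h15⟩ := hN
    rw [hK] at h9
    obtain ⟨h16, h17, h18⟩ := h9
    have hq : q % 2 = 1 := (h16.eq_two_or_odd).resolve_left h17
    have hp2 : p % 2 = 1 := by
      rcases h12.eq_two_or_odd with h19 | h19
      · exfalso
        obtain ⟨r, hr⟩ := h2
        have h20 := h13.eq_one_or_self_of_dvd 2 ⟨1 + k * r, by rw [h19, hr]; ring⟩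
        have : 0 < k * M := Nat.mul_pos hk1 hM
        omega
      · exact h19
    have e1 : 2 * (N / 2) - q = p := by omega
    refine ⟨by omega, by omega, q, h16, by
      have := h12.pos
      omega, h18, h10, ?_, k, hk1, hk2, ?_⟩
    · rw [e1]; exact h11
    · rw [e1]; exact ⟨h12, h13, h14⟩
  · intro N hN N' hN' hNN
    have hodd : ∀ N ∈ S, N % 2 = 0 := by
      intro N hN
      rw [hS, Finset.mem_filter, Finset.mem_Icc] at hN
      obtain ⟨⟨h5, h6⟩, p, q, h7, h8, h9, h10, k, hk1, hk2, h11, h12, h13, h14⟩ := hN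
      rw [hK] at h9
      obtain ⟨h16, h17, h18⟩ := h9
      have hq : q % 2 = 1 := (h16.eq_two_or_odd).resolve_left h17
      have hp2 : p % 2 = 1 := by
        rcases h12.eq_two_or_odd with h19 | h19
        · exfalso
          obtain ⟨r, hr⟩ := h2
          have h20 := h13.eq_one_or_self_of_dvd 2 ⟨1 + k * r, by rw [h19, hr]; ring⟩
          have : 0 < k * M := Nat.mul_pos hk1 hM
          omega
        · exact h19
      omega
    rw [Finset.mem_coe, Finset.mem_filter] at hN hN'
    have h5 := hodd N hN.1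
    have h6 := hodd N' hN'.1
    have h7 : N / 2 = N' / 2 := hNN
    omega
  · exact (Set.finite_Icc 1 x).subset fun m hm => ⟨by have := hm.1; omega, hm.2.1⟩

end Pool.Agent.Results.MP_5d7b92_nt.BoundedGapsIndexSets
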