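import Pool.Agent.X5.FE.Gen

/-!
# MP_5d7b92_nt: even numbers without representations with one of the first elements of index sets

Let `K_0, K_1, ...` be arbitrary sets of positive integers. For all large `X` (uniformly in the sets) there is
an even `2 n` in `(X, 2 X]` such that for every prime `p < 2 n` with `2 n - p` prime and `π(p)` in `K_i` there
are more than `c log X log log X / 2 ^ i` primes `p' ≤ p` with `π(p')` in `K_i`, and more than
`c log X log log X` primes `≤ 2 n - p`. For `K_0` the set of the primes this is the situation of the question.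
-/

set_option autoImplicit false
set_option maxHeartbeats 4000000

namespace Pool.Agent.Results.MP_5d7b92_nt.FirstIndices

open Classical in
/-- the number of the primes `p' ≤ p` with `π(p')` in `K` -/
noncomputable def rank (K : Set ℕ) (p : ℕ) : ℕ :=
  ((Finset.range (p + 1)).filter (fun t : ℕ => t.Prime ∧ Nat.primeCounting t ∈ K)).card

open Classical in
lemma rank_eq (K : Set ℕ) (p : ℕ) (hp : p.Prime) (hK : Nat.primeCounting p ∈ K) :
    rank K p = Nat.count (fun t : ℕ => t.Prime ∧ Nat.primeCounting t ∈ K) p + 1 := by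
  unfold rank
  rw [← Nat.count_eq_card_filter_range, Nat.count_succ, if_pos ⟨hp, hK⟩]

open Classical in
/-- **The first elements of countably many index sets are avoided.** -/
theorem result : ∃ c : ℝ, 0 < c ∧ ∃ X₀ : ℝ, ∀ X : ℝ, X₀ ≤ X → ∀ K : ℕ → Set ℕ,
    ∃ n : ℕ, X < 2 * n ∧ (2 * n : ℝ) ≤ 2 * X ∧
      ∀ i p : ℕ, p < 2 * n → p.Prime → (2 * n - p).Prime → Nat.primeCounting p ∈ K i →
        c * (Real.log X * Real.log (Real.log X)) / 2 ^ i < rank (K i) p ∧
        c * (Real.log X * Real.log (Real.log X)) < Nat.primeCounting (2 * n - p) := by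
  obtain ⟨c, hc, X₀, h⟩ := Pool.Agent.X5.FE.avoid_seqs 2 (by norm_num) 0
  refine ⟨c / 2, by positivity, X₀, fun X hX K => ?_⟩
  obtain ⟨N, hN1, hN2, hN3, hN4⟩ := h X hX (fun i u => if i = 0 then Nat.nth Nat.Prime (u - 1) else
    Nat.nth (fun t : ℕ => t.Prime ∧ Nat.primeCounting t ∈ K (i - 1)) (u - 1))
  have h2 := hN3 2 Nat.prime_two (dvd_refl 2)
  have hNn : N = 2 * (N / 2) := by omega
  have hNR : (N : ℝ) = 2 * ((N / 2 : ℕ) : ℝ) := by exact_mod_cast hNn
  refine ⟨N / 2, by linarith, by linarith, ?_⟩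
  intro i p hp2 hp hq hpK
  refine ⟨?_, ?_⟩
  · have h4 := hN4 (i + 1) (rank (K i) p) (2 * (N / 2) - p) (by rw [rank_eq _ _ hp hpK]; omega) hq (by
      simp only [Nat.add_eq_zero_iff, one_ne_zero, and_false, if_false, Nat.add_sub_cancel]
      rw [rank_eq _ _ hp hpK, Nat.add_sub_cancel, Nat.nth_count ⟨hp, hpK⟩]
      omega)
    refine lt_of_le_of_lt (le_of_eq ?_) h4
    rw [pow_succ]
    field_simp
  · have h5 : Nat.primeCounting (2 * (N / 2) - p) = Nat.count Nat.Prime (2 * (N / 2) - p) + 1 := by
      unfold Nat.primeCounting Nat.primeCounting'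
      rw [Nat.count_succ, if_pos hq]
    have h4 := hN4 0 (Nat.primeCounting (2 * (N / 2) - p)) p (by omega) hp (by
      simp only [if_true]
      rw [h5, Nat.add_sub_cancel, Nat.nth_count hq]
      omega)
    rw [pow_zero, div_one] at h4
    by_cases hneg : 0 ≤ Real.log X * Real.log (Real.log X)
    · nlinarith
    · push Not at hneg
      have : (0 : ℝ) ≤ Nat.primeCounting (2 * (N / 2) - p) := Nat.cast_nonneg _
      nlinarith

end Pool.Agent.Results.MP_5d7b92_nt.FirstIndices
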