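import Pool.Agent.X62.MP.GP

/-!
# MP_5d7b92_nt: primes with indices in prescribed sets, in progressions modulo a prime with generic difference

Let `I`, `I'` be sets of indices with at least `c x / (log x) ^ κ`, `c x / (log x) ^ κ'` elements up to `x`, for
all large `x`. Then for every prime `q` and every length `L ≤ q`, all but at most
`C q (log q) ^ ((κ + κ' + 2) / 2) / L` of the differences `v` modulo `q` have the following property: EVERY
progression `x, x + v, ..., x + (L - 1) v` modulo `q` contains the residue of an even number `2 n < q` which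
is the sum of two different primes `p`, `p'` with `π(p) ∈ I`, `π(p') ∈ I'`. In the question `I` is the set of
the primes and `I'` is the set of all positive integers.
-/

set_option autoImplicit false

namespace Pool.Agent.Results.MP_5d7b92_nt.GenericProgressions

open Finset Filter

/-- At least `c x / (log x) ^ κ` elements in `[1, x]`, for all large natural numbers `x`. -/
def Thick (I : Set ℕ) (κ : ℝ) : Prop :=
  ∃ c : ℝ, 0 < c ∧ ∃ x₀ : ℕ, ∀ x : ℕ, x₀ ≤ x →
    c * x / Real.log x ^ κ ≤ ((I ∩ Set.Icc 1 x).ncard : ℕ)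

/-- `m` is the sum of two different primes with indices in `I` and in `I'`. -/
def Rep (I I' : Set ℕ) (m : ℕ) : Prop :=
  ∃ p p' : ℕ, p.Prime ∧ p'.Prime ∧ Nat.primeCounting p ∈ I ∧ Nat.primeCounting p' ∈ I' ∧ p ≠ p' ∧ p + p' = m

/-- Every progression `x, x + v, ..., x + (L - 1) v` contains a number congruent modulo `q` to an
even number `2 n < q` with `Rep I I' (2 n)`. -/
def Meets (I I' : Set ℕ) (L q v : ℕ) : Prop :=
  ∀ x : ℕ, ∃ r : ℕ, r < L ∧ ∃ n : ℕ, 2 * n < q ∧ Rep I I' (2 * n) ∧ 2 * n ≡ x + r * v [MOD q]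

/-- many primes with index in `I` -/
lemma dens_fixed {I : Set ℕ} {κ : ℝ} (hκ0 : 0 ≤ κ) (hI : Thick I κ) : ∃ K : ℝ, 0 < K ∧ ∃ y0 : ℕ, ∀ y : ℕ,
    y0 ≤ y → ∃ S : Finset ℕ, S ⊆ Icc 1 y ∧ (∀ p ∈ S, p.Prime ∧ Nat.primeCounting p ∈ I) ∧ 4 ≤ S.card ∧
      K * y ≤ S.card * Real.log y ^ (κ + 1) := by
  classical
  obtain ⟨c, hc, x₀, hx⟩ := hI
  obtain ⟨c', hc', -, hch⟩ := Pool.Agent.Y886.UT.cheb
  refine ⟨c * c', by positivity, ?_⟩
  have h1 := (isLittleO_log_rpow_rpow_atTop (κ + 1) (show (0 : ℝ) < 1 by norm_num)).bound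
    (by positivity : (0 : ℝ) < c * c' / 4)
  have h2 := (tendsto_natCast_atTop_atTop (R := ℝ)).eventually h1
  have htend : Tendsto Nat.primeCounting atTop atTop := by
    rw [tendsto_atTop_atTop]
    intro b
    refine ⟨Nat.nth Nat.Prime b, fun a ha => ?_⟩
    have h1 := Nat.monotone_primeCounting ha
    have h2 : b ≤ Nat.primeCounting (Nat.nth Nat.Prime b) := by
      unfold Nat.primeCounting Nat.primeCounting'
      rw [Nat.count_succ, Nat.count_nth_of_infinite Nat.infinite_setOfPred_prime]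
      omega
    omega
  obtain ⟨y0, hy0⟩ := eventually_atTop.1 ((h2.and (eventually_ge_atTop 3)).and
    (htend.eventually_ge_atTop (x₀ + 2)))
  refine ⟨y0, fun y hy => ?_⟩
  obtain ⟨⟨h3, hy3⟩, hpix⟩ := hy0 y hy
  have hyr : (3 : ℝ) ≤ y := by exact_mod_cast hy3
  have hl : 0 < Real.log y := Real.log_pos (by linarith)
  have hlp : 0 < Real.log y ^ (κ + 1) := Real.rpow_pos_of_pos hl _
  have hlk : 0 < Real.log y ^ κ := Real.rpow_pos_of_pos hl _
  rw [Real.norm_of_nonneg hlp.le, Real.rpow_one, Real.norm_of_nonneg (by linarith)] at h3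
  set x := Nat.primeCounting y with hxdef
  have hx2 : 2 ≤ x := by omega
  have hxr : (2 : ℝ) ≤ x := by exact_mod_cast hx2
  have hxy : x ≤ y := Pool.Agent.H197R2.PG.pi_le_self y
  have hxyr : (x : ℝ) ≤ y := by exact_mod_cast hxy
  have hlx0 : 0 < Real.log x := Real.log_pos (by linarith)
  have hlx : Real.log x ≤ Real.log y := Real.log_le_log (by linarith) hxyr
  have hlxk : 0 < Real.log x ^ κ := Real.rpow_pos_of_pos hlx0 _
  have h4 := hx x (by omega)
  have hfin : (I ∩ Set.Icc 1 x).Finite := (Set.finite_Icc 1 x).subset Set.inter_subset_right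
  rw [Set.ncard_eq_toFinset_card _ hfin] at h4
  set T := hfin.toFinset with hT
  have hTm : ∀ i ∈ T, i ∈ I ∧ 1 ≤ i ∧ i ≤ x := by
    intro i hi
    have := hfin.mem_toFinset.1 hi
    exact ⟨this.1, this.2.1, this.2.2⟩
  have hpi : ∀ m : ℕ, 1 ≤ m → Nat.primeCounting (Nat.nth Nat.Prime (m - 1)) = m := by
    intro m hm
    rw [Nat.primeCounting, Nat.primeCounting', Nat.count_succ, ← Nat.primeCounting',
      Nat.primeCounting'_nth_eq, if_pos (Nat.prime_nth_prime _)]
    omega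
  have hinj : Set.InjOn (fun m : ℕ => Nat.nth Nat.Prime (m - 1)) (T : Set ℕ) := by
    intro a ha b hb hab
    have ha1 := (hTm a ha).2.1
    have hb1 := (hTm b hb).2.1
    simp only at hab
    rw [← hpi a ha1, ← hpi b hb1, hab]
  have hcard : (T.image (fun m : ℕ => Nat.nth Nat.Prime (m - 1))).card = T.card :=
    Finset.card_image_of_injOn hinj
  have hkey : c * c' * y ≤ T.card * Real.log y ^ (κ + 1) := by
    have h5 : c * x ≤ T.card * Real.log x ^ κ := by rwa [div_le_iff₀ hlxk] at h4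
    have h6 : Real.log x ^ κ ≤ Real.log y ^ κ := Real.rpow_le_rpow hlx0.le hlx hκ0
    have h7 := hch y (by omega)
    calc c * c' * y = c * (c' * y) := by ring
      _ ≤ c * (x * Real.log y) := mul_le_mul_of_nonneg_left h7 hc.le
      _ = (c * x) * Real.log y := by ring
      _ ≤ (T.card * Real.log x ^ κ) * Real.log y := mul_le_mul_of_nonneg_right h5 hl.le
      _ ≤ (T.card * Real.log y ^ κ) * Real.log y := by gcongr
      _ = T.card * Real.log y ^ (κ + 1) := by rw [Real.rpow_add hl, Real.rpow_one]; ring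
  have h8 : (4 : ℝ) ≤ T.card := by
    have h9 : 4 * Real.log y ^ (κ + 1) ≤ T.card * Real.log y ^ (κ + 1) := by
      refine le_trans ?_ hkey
      linarith
    exact le_of_mul_le_mul_right h9 hlp
  refine ⟨T.image (fun m : ℕ => Nat.nth Nat.Prime (m - 1)), ?_, ?_, ?_, ?_⟩
  · intro p hp
    obtain ⟨m, hm, rfl⟩ := mem_image.mp hp
    have hm1 := hTm m hm
    rw [mem_Icc]
    refine ⟨(Nat.prime_nth_prime _).one_lt.le, ?_⟩
    have h5 : m - 1 < Nat.count Nat.Prime (y + 1) := by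
      have : Nat.primeCounting y = Nat.count Nat.Prime (y + 1) := rfl
      omega
    have h6 := Nat.nth_lt_of_lt_count h5
    omega
  · intro p hp
    obtain ⟨m, hm, rfl⟩ := mem_image.mp hp
    have hm1 := hTm m hm
    exact ⟨Nat.prime_nth_prime _, by rw [hpi m hm1.2.1]; exact hm1.1⟩
  · rw [hcard]; exact_mod_cast h8
  · rw [hcard]; exact hkey

/-- the differences `2 j` with `2 j L < q` are exceptional -/
lemma lower (I I' : Set ℕ) (q L : ℕ) (hL : 1 ≤ L) :
    (q - 1) / (2 * L) ≤ {v : ℕ | 0 < v ∧ v < q ∧ ¬ Meets I I' L q v}.ncard := by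
  have hfin : {v : ℕ | 0 < v ∧ v < q ∧ ¬ Meets I I' L q v}.Finite :=
    (Set.finite_lt_nat q).subset fun v hv => hv.2.1
  set K := (q - 1) / (2 * L) with hK
  have hsub : ((fun j : ℕ => 2 * j) '' (Set.Icc 1 K)) ⊆ {v : ℕ | 0 < v ∧ v < q ∧ ¬ Meets I I' L q v} := by
    rintro v ⟨j, hj, rfl⟩
    obtain ⟨hj1, hj2⟩ := Set.mem_Icc.1 hj
    have h1 : K * (2 * L) ≤ q - 1 := Nat.div_mul_le_self _ _
    have h2 : j * (2 * L) ≤ K * (2 * L) := Nat.mul_le_mul_right _ hj2
    have h3 : j * (2 * L) = 2 * (j * L) := by ring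
    have h4 : j ≤ j * L := Nat.le_mul_of_pos_right _ hL
    have h5 : 2 * (j * L) ≤ q - 1 := by omega
    refine ⟨by simp only; omega, by simp only; omega, fun hM => ?_⟩
    obtain ⟨r, hr, n, hn, -, hmod⟩ := hM 1
    have h6 : r * (2 * j) = 2 * (j * r) := by ring
    have h7 : j * (r + 1) ≤ j * L := Nat.mul_le_mul_left _ hr
    have h8 : j * (r + 1) = j * r + j := by ring
    have h9 : 1 + r * (2 * j) < q := by omega
    have h10 : 2 * n = 1 + r * (2 * j) := by
      have h11 : 2 * n % q = (1 + r * (2 * j)) % q := hmod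
      rwa [Nat.mod_eq_of_lt hn, Nat.mod_eq_of_lt h9] at h11
    omega
  have h1 := Set.ncard_le_ncard hsub hfin
  rw [Set.ncard_image_of_injective _ (fun x y h => by have h' : 2 * x = 2 * y := h; omega)] at h1
  have h2 : (Set.Icc 1 K).ncard = K := by
    rw [← Finset.coe_Icc, Set.ncard_coe_finset, Nat.card_Icc, Nat.add_sub_cancel]
  rwa [h2] at h1

theorem upper (I I' : Set ℕ) (κ κ' : ℝ) (hκ0 : 0 ≤ κ) (hκ'0 : 0 ≤ κ') (hI : Thick I κ) (hI' : Thick I' κ') :
    ∃ C : ℝ, 0 < C ∧ ∀ q : ℕ, q.Prime → ∀ L : ℕ, 1 ≤ L → L ≤ q →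
    (({v : ℕ | 0 < v ∧ v < q ∧ ¬ Meets I I' L q v}.ncard : ℕ) : ℝ) ≤
      C * q * Real.log q ^ ((κ + κ' + 2) / 2) / L := by
  obtain ⟨K, hK, y0, hA⟩ := dens_fixed hκ0 hI
  obtain ⟨K', hK', y1, hB⟩ := dens_fixed hκ'0 hI'
  set q0 : ℕ := 2 * (y0 + y1) + 4 with hq0
  set e : ℝ := (κ + κ' + 2) / 2 with he
  have he0 : 0 ≤ e := by positivity
  have hlog2 : 0 < Real.log 2 := Real.log_pos (by norm_num)
  refine ⟨32 / Real.sqrt (K * K') + q0 / Real.log 2 ^ e, by positivity, fun q hq L hL hLq => ?_⟩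
  have hq2 : 2 ≤ q := hq.two_le
  have hqr : (2 : ℝ) ≤ q := by exact_mod_cast hq2
  have hqr0 : (0 : ℝ) < q := by linarith
  have hlq : Real.log 2 ≤ Real.log q := Real.log_le_log (by norm_num) hqr
  have hlq0 : 0 < Real.log q := by linarith
  have hL0 : (0 : ℝ) < L := by exact_mod_cast (by omega : 0 < L)
  have hLqr : (L : ℝ) ≤ q := by exact_mod_cast hLq
  have hfin : {v : ℕ | 0 < v ∧ v < q ∧ ¬ Meets I I' L q v}.Finite :=
    (Set.finite_lt_nat q).subset fun v hv => hv.2.1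
  rw [Set.ncard_eq_toFinset_card _ hfin]
  set V := hfin.toFinset with hV
  have hVm : ∀ v ∈ V, 0 < v ∧ v < q ∧ ¬ Meets I I' L q v := fun v hv => hfin.mem_toFinset.1 hv
  have hVq : (V.card : ℝ) ≤ q := by
    have h1 : V.card ≤ (range q).card := card_le_card fun v hv => mem_range.2 (hVm v hv).2.1
    rw [card_range] at h1
    exact_mod_cast h1
  have hpow0 : 0 < Real.log q ^ e := Real.rpow_pos_of_pos hlq0 _
  have hpow2 : 0 < Real.log 2 ^ e := Real.rpow_pos_of_pos hlog2 _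
  have hpow : Real.log 2 ^ e ≤ Real.log q ^ e := Real.rpow_le_rpow hlog2.le hlq he0
  have hs0 : 0 < Real.sqrt (K * K') := Real.sqrt_pos.2 (by positivity)
  rw [le_div_iff₀ hL0]
  rcases lt_or_ge q q0 with hqs | hqb
  · have hqs' : (q : ℝ) ≤ q0 := by exact_mod_cast hqs.le
    have h1 : (q0 : ℝ) ≤ q0 / Real.log 2 ^ e * Real.log q ^ e := by
      rw [div_mul_eq_mul_div, le_div_iff₀ hpow2]
      exact mul_le_mul_of_nonneg_left hpow (Nat.cast_nonneg _)
    calc (V.card : ℝ) * L ≤ q * q := mul_le_mul hVq hLqr hL0.le hqr0.le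
      _ ≤ q * q0 := by gcongr
      _ ≤ q * (q0 / Real.log 2 ^ e * Real.log q ^ e) := by gcongr
      _ = q0 / Real.log 2 ^ e * (q * Real.log q ^ e) := by ring
      _ ≤ (32 / Real.sqrt (K * K') + q0 / Real.log 2 ^ e) * (q * Real.log q ^ e) := by
          apply mul_le_mul_of_nonneg_right _ (by positivity)
          have : 0 < 32 / Real.sqrt (K * K') := by positivity
          linarith
      _ = _ := by ring
  · set y : ℕ := (q - 1) / 2 with hy
    obtain ⟨S, hS1, hS2, hS3, hS4⟩ := hA y (by omega)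
    obtain ⟨T, hT1, hT2, hT3, hT4⟩ := hB y (by omega)
    have hyq : (q : ℝ) / 4 ≤ y := by
      have h1 : q ≤ 4 * y := by omega
      have h2 : (q : ℝ) ≤ 4 * y := by exact_mod_cast h1
      linarith
    have hy1 : (1 : ℝ) ≤ y := by exact_mod_cast (by omega : 1 ≤ y)
    have hyq' : (y : ℝ) ≤ q := by exact_mod_cast (by omega : y ≤ q)
    have hly : Real.log y ≤ Real.log q := Real.log_le_log (by linarith) hyq'
    have hly0 : 0 ≤ Real.log y := Real.log_nonneg hy1
    have key := Pool.Agent.X62.MP.odd_sums q hq S T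
      (fun p hp => ⟨(hS2 p hp).1, by have := (mem_Icc.1 (hS1 hp)).2; omega⟩)
      (fun p hp => ⟨(hT2 p hp).1, by have := (mem_Icc.1 (hT1 hp)).2; omega⟩) hS3 hT3 L hL hLq V (by
        intro v hv
        obtain ⟨hv0, hvq, hbad⟩ := hVm v hv
        unfold Meets at hbad
        push Not at hbad
        obtain ⟨x, hx⟩ := hbad
        refine ⟨hv0, hvq, x, fun r hr p hp p' hp' n hne hsum => ?_⟩
        have h1 := (mem_Icc.1 (hS1 hp)).2
        have h2 := (mem_Icc.1 (hT1 hp')).2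
        exact hx r hr n (by omega)
          ⟨p, p', (hS2 p hp).1, (hT2 p' hp').1, (hS2 p hp).2, (hT2 p' hp').2, hne, hsum⟩)
    -- the lower bound of the geometric mean
    have h1 : K * (q / 4) ≤ S.card * Real.log q ^ (κ + 1) := by
      calc K * (q / 4) ≤ K * y := by gcongr
        _ ≤ S.card * Real.log y ^ (κ + 1) := hS4
        _ ≤ _ := by gcongr
    have h2 : K' * (q / 4) ≤ T.card * Real.log q ^ (κ' + 1) := by
      calc K' * (q / 4) ≤ K' * y := by gcongr
        _ ≤ T.card * Real.log y ^ (κ' + 1) := hT4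
        _ ≤ _ := by gcongr
    have h3 : (K * K') * ((q : ℝ) / 4) ^ 2 ≤ ((S.card : ℝ) * T.card) * (Real.log q ^ e) ^ 2 := by
      have e1 : (Real.log q ^ e) ^ 2 = Real.log q ^ (κ + 1) * Real.log q ^ (κ' + 1) := by
        rw [← Real.rpow_natCast, ← Real.rpow_mul hlq0.le, ← Real.rpow_add hlq0]
        congr 1
        rw [he]
        push_cast
        ring
      rw [e1]
      calc (K * K') * ((q : ℝ) / 4) ^ 2 = (K * (q / 4)) * (K' * (q / 4)) := by ring
        _ ≤ (S.card * Real.log q ^ (κ + 1)) * (T.card * Real.log q ^ (κ' + 1)) := by gcongr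
        _ = _ := by ring
    have h4 : Real.sqrt (K * K') * (q / 4) ≤ Real.sqrt (S.card * T.card) * Real.log q ^ e := by
      have h5 := Real.sqrt_le_sqrt h3
      rwa [Real.sqrt_mul (show (0 : ℝ) ≤ K * K' by positivity) (((q : ℝ) / 4) ^ 2),
        Real.sqrt_sq (show (0 : ℝ) ≤ (q : ℝ) / 4 by positivity),
        Real.sqrt_mul (show (0 : ℝ) ≤ (S.card : ℝ) * T.card by positivity) ((Real.log q ^ e) ^ 2),
        Real.sqrt_sq hpow0.le] at h5
    have h6 : (V.card : ℝ) * L * (Real.sqrt (K * K') * (q / 4)) ≤ 8 * (q : ℝ) ^ 2 * Real.log q ^ e := by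
      calc (V.card : ℝ) * L * (Real.sqrt (K * K') * (q / 4))
          ≤ V.card * L * (Real.sqrt (S.card * T.card) * Real.log q ^ e) := by gcongr
        _ = (V.card * L * Real.sqrt (S.card * T.card)) * Real.log q ^ e := by ring
        _ ≤ _ := mul_le_mul_of_nonneg_right key hpow0.le
    have h7 : (V.card : ℝ) * L ≤ 32 / Real.sqrt (K * K') * (q * Real.log q ^ e) := by
      have h8 : 0 < Real.sqrt (K * K') * (q / 4) := by positivity
      refine le_of_mul_le_mul_right (h6.trans (le_of_eq ?_)) h8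
      field_simp
      ring
    calc (V.card : ℝ) * L ≤ 32 / Real.sqrt (K * K') * (q * Real.log q ^ e) := h7
      _ ≤ (32 / Real.sqrt (K * K') + q0 / Real.log 2 ^ e) * (q * Real.log q ^ e) := by
          apply mul_le_mul_of_nonneg_right _ (by positivity)
          have : 0 ≤ q0 / Real.log 2 ^ e := by positivity
          linarith
      _ = _ := by ring

lemma thick_primes : Thick {i : ℕ | i.Prime} 1 := by
  classical
  obtain ⟨c, hc, -, hch⟩ := Pool.Agent.Y886.UT.cheb
  refine ⟨c, hc, 3, fun x hx => ?_⟩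
  have hxr : (3 : ℝ) ≤ x := by exact_mod_cast hx
  have hl : 0 < Real.log x := Real.log_pos (by linarith)
  rw [Real.rpow_one, div_le_iff₀ hl]
  refine (hch x (by omega)).trans (mul_le_mul_of_nonneg_right ?_ hl.le)
  have h1 : {i : ℕ | i.Prime} ∩ Set.Icc 1 x = (((Finset.range (x + 1)).filter Nat.Prime : Finset ℕ) : Set ℕ) := by
    ext i
    simp only [Set.mem_inter_iff, Set.mem_ofPred_eq, Set.mem_Icc, Finset.coe_filter, Finset.mem_range]
    constructor
    · rintro ⟨h1, h2, h3⟩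
      exact ⟨by omega, h1⟩
    · rintro ⟨h1, h2⟩
      exact ⟨h2, h2.one_lt.le, by omega⟩
  rw [h1, Set.ncard_coe_finset, Nat.primeCounting, Nat.primeCounting', Nat.count_eq_card_filter_range]

lemma thick_univ : Thick Set.univ 0 := by
  refine ⟨1, one_pos, 0, fun x _ => ?_⟩
  rw [Real.rpow_zero, div_one, one_mul, Set.univ_inter, ← Finset.coe_Icc, Set.ncard_coe_finset,
    Nat.card_Icc, Nat.add_sub_cancel]

/-- **Main theorem**: an upper bound and a lower bound for the number of the exceptional differences, for general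
sets of indices, and in the case of the question. -/
theorem result :
    (∀ (I I' : Set ℕ) (κ κ' : ℝ), 0 ≤ κ → 0 ≤ κ' → Thick I κ → Thick I' κ' →
      ∃ C : ℝ, 0 < C ∧ ∀ q : ℕ, q.Prime → ∀ L : ℕ, 1 ≤ L → L ≤ q →
        (q - 1) / (2 * L) ≤ {v : ℕ | 0 < v ∧ v < q ∧ ¬ Meets I I' L q v}.ncard ∧
        (({v : ℕ | 0 < v ∧ v < q ∧ ¬ Meets I I' L q v}.ncard : ℕ) : ℝ) ≤
          C * q * Real.log q ^ ((κ + κ' + 2) / 2) / L) ∧
    ∃ C : ℝ, 0 < C ∧ ∀ q : ℕ, q.Prime → ∀ L : ℕ, 1 ≤ L → L ≤ q →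
      (q - 1) / (2 * L) ≤ {v : ℕ | 0 < v ∧ v < q ∧ ¬ Meets {i | i.Prime} Set.univ L q v}.ncard ∧
      (({v : ℕ | 0 < v ∧ v < q ∧ ¬ Meets {i | i.Prime} Set.univ L q v}.ncard : ℕ) : ℝ) ≤
        C * q * Real.log q ^ (3 / 2 : ℝ) / L := by
  refine ⟨fun I I' κ κ' hκ hκ' hI hI' => ?_, ?_⟩
  · obtain ⟨C, hC, h⟩ := upper I I' κ κ' hκ hκ' hI hI'
    exact ⟨C, hC, fun q hq L hL hLq => ⟨lower I I' q L hL, h q hq L hL hLq⟩⟩
  · obtain ⟨C, hC, h⟩ := upper {i | i.Prime} Set.univ 1 0 zero_le_one le_rfl thick_primes thick_univ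
    refine ⟨C, hC, fun q hq L hL hLq => ⟨lower _ _ q L hL, ?_⟩⟩
    have h1 := h q hq L hL hLq
    rwa [show ((1 : ℝ) + 0 + 2) / 2 = 3 / 2 by norm_num] at h1

end Pool.Agent.Results.MP_5d7b92_nt.GenericProgressions
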