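import Pool.Agent.X15.RG.One

/-!
# Sums of a prime with index in a set of density near one and a prime: the exact size of the exceptional set

The question asks for representations `2n = p + q` with `p`, `q` prime and `π(p)` in a given set of indices (the primes).
For a set `I` of indices of lower density at least `1 - η` the even numbers without such a representation have upper density
at most `exp (- exp ((2 C₂ e ^ (-γ) - δ) / η))` for all small `η`, and for suitable `I` they have lower density at least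
`exp (- exp ((2 C₂ e ^ (-γ) + δ) / η))`. Here `C₂` is the twin prime constant and `γ` the constant of Euler and Mascheroni.

The upper bound is a theorem of the starting files (`Pool.Agent.TH881.RG`); the example is proved in `Pool.Agent.X15.RG.One`.
-/

set_option autoImplicit false

namespace Pool.Agent.Results.MP_5d7b92_nt.IndexSetsOfDensityNearOne

open Finset Filter Topology

open Classical in
/-- The number of elements of `S` in `[1, x]`. -/
noncomputable def count (S : Set ℕ) (x : ℕ) : ℕ := ((Icc 1 x).filter (fun n => n ∈ S)).card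

/-- The upper asymptotic density. -/
noncomputable def upperDensity (S : Set ℕ) : ℝ := limsup (fun x : ℕ => (count S x : ℝ) / x) atTop

/-- The lower asymptotic density. -/
noncomputable def lowerDensity (S : Set ℕ) : ℝ := liminf (fun x : ℕ => (count S x : ℝ) / x) atTop

/-- The twin prime constant `∏_{p > 2} (1 - 1 / (p - 1) ^ 2)`. -/
noncomputable def C₂ : ℝ := ⨅ z : ℕ, ∏ p ∈ (Icc 3 z).filter Nat.Prime, (1 - 1 / ((p : ℝ) - 1) ^ 2)

/-- The even numbers which are not a sum `p + q` of primes `p`, `q` with `π(p) ∈ I`. -/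
def exceptions (I : Set ℕ) : Set ℕ :=
  {n | Even n ∧ ¬ ∃ p q : ℕ, p.Prime ∧ q.Prime ∧ Nat.primeCounting p ∈ I ∧ p + q = n}

lemma primeCounting_tendsto : Tendsto Nat.primeCounting atTop atTop := by
  rw [tendsto_atTop_atTop]
  intro b
  refine ⟨Nat.nth Nat.Prime b, fun a ha => ?_⟩
  have h1 := Nat.monotone_primeCounting ha
  have h2 : b ≤ Nat.primeCounting (Nat.nth Nat.Prime b) := by
    unfold Nat.primeCounting Nat.primeCounting'
    rw [Nat.count_succ, Nat.count_nth_of_infinite Nat.infinite_setOf_prime]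
    omega
  omega

lemma ratio_bdd (u : ℕ → ℝ) (h0 : ∀ n, 0 ≤ u n) (h1 : ∀ n, u n ≤ 1) (φ : ℕ → ℕ) (hφ : Tendsto φ atTop atTop) :
    liminf u atTop ≤ liminf (fun n => u (φ n)) atTop := by
  have hb : IsBoundedUnder (· ≥ ·) atTop u := isBoundedUnder_of ⟨0, h0⟩
  have hcb : IsCoboundedUnder (· ≥ ·) atTop (fun n => u (φ n)) :=
    IsBoundedUnder.isCoboundedUnder_ge (isBoundedUnder_of ⟨1, fun n => h1 _⟩)
  apply le_of_forall_lt
  intro c hc
  obtain ⟨c', hc1, hc2⟩ := exists_between hc
  have h2 : ∀ᶠ n in atTop, c' < u n := eventually_lt_of_lt_liminf hc2 hb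
  have h3 : ∀ᶠ n in atTop, c' ≤ u (φ n) := (hφ.eventually h2).mono fun n hn => hn.le
  exact hc1.trans_le (le_liminf_of_le hcb h3)

lemma count_le (S : Set ℕ) (x : ℕ) : count S x ≤ x := by
  classical
  unfold count
  refine (card_filter_le _ _).trans ?_
  simp

lemma ratio_nonneg (S : Set ℕ) (x : ℕ) : 0 ≤ (count S x : ℝ) / x := by positivity

lemma ratio_le_one (S : Set ℕ) (x : ℕ) : (count S x : ℝ) / x ≤ 1 := by
  rcases Nat.eq_zero_or_pos x with h | h
  · subst h
    simp
  · rw [div_le_one (by exact_mod_cast h)]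
    exact_mod_cast count_le S x

/-- the number of the primes `p ≤ x` with `π(p) ∈ I` is the number of the elements of `I` up to `π(x)` -/
lemma count_index' (I S : Set ℕ) (hS : ∀ p, p ∈ S ↔ p.Prime ∧ Nat.primeCounting p ∈ I) (x : ℕ) :
    count S x = count I (Nat.primeCounting x) := by
  classical
  unfold count
  apply card_bij (fun p _ => Nat.primeCounting p)
  · intro p hp
    rw [mem_filter, mem_Icc, hS] at hp
    obtain ⟨⟨h1, h2⟩, h3, h4⟩ := hp
    rw [mem_filter, mem_Icc]
    exact ⟨⟨Nat.monotone_primeCounting h3.two_le |>.trans' (by decide), Nat.monotone_primeCounting h2⟩, h4⟩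
  · intro p hp q hq hpq
    rw [mem_filter, hS] at hp hq
    have key : ∀ p : ℕ, p.Prime → Nat.nth Nat.Prime (Nat.primeCounting p - 1) = p := by
      intro p hp
      have h1 : Nat.primeCounting p = Nat.count Nat.Prime p + 1 := by
        unfold Nat.primeCounting Nat.primeCounting'
        rw [Nat.count_succ, if_pos hp]
      rw [h1, Nat.add_sub_cancel]
      exact Nat.nth_count hp
    rw [← key p hp.2.1, ← key q hq.2.1, hpq]
  · intro k hk
    rw [mem_filter, mem_Icc] at hk
    obtain ⟨⟨h1, h2⟩, h3⟩ := hk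
    have h4 : (Nat.nth Nat.Prime (k - 1)).Prime := Nat.prime_nth_prime _
    have h5 : Nat.primeCounting (Nat.nth Nat.Prime (k - 1)) = k := by
      unfold Nat.primeCounting Nat.primeCounting'
      rw [Nat.count_succ, Nat.count_nth_of_infinite Nat.infinite_setOf_prime, if_pos h4]
      omega
    refine ⟨Nat.nth Nat.Prime (k - 1), ?_, h5⟩
    rw [mem_filter, mem_Icc, hS]
    refine ⟨⟨h4.pos, ?_⟩, h4, ?_⟩
    · by_contra hcon
      push Not at hcon
      have h6 : Nat.primeCounting x < Nat.primeCounting (Nat.nth Nat.Prime (k - 1)) := by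
        have h7 : Nat.primeCounting x ≤ Nat.primeCounting' (Nat.nth Nat.Prime (k - 1)) := by
          unfold Nat.primeCounting
          exact Nat.monotone_primeCounting' (by omega)
        have h8 : Nat.primeCounting' (Nat.nth Nat.Prime (k - 1)) <
            Nat.primeCounting (Nat.nth Nat.Prime (k - 1)) := by
          unfold Nat.primeCounting Nat.primeCounting'
          rw [Nat.count_succ, if_pos h4]
          omega
        omega
      omega
    · show Nat.primeCounting (Nat.nth Nat.Prime (k - 1)) ∈ I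
      rw [h5]
      exact h3

lemma count_index (I : Set ℕ) (x : ℕ) :
    count {p | p.Prime ∧ p ∈ {p : ℕ | Nat.primeCounting p ∈ I}} x = count I (Nat.primeCounting x) :=
  count_index' I _ (fun _ => Iff.rfl) x

lemma count_prime (x : ℕ) : count {p | p.Prime} x = Nat.primeCounting x := by
  classical
  have h := count_index Set.univ x
  have h1 : {p : ℕ | p.Prime ∧ p ∈ {p : ℕ | Nat.primeCounting p ∈ (Set.univ : Set ℕ)}} = {p | p.Prime} := by
    ext p
    simp
  rw [h1] at h
  rw [h]
  unfold count
  simp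

open Pool.Agent.TH881.RG in
/-- the relative lower density of the primes with index in `I` is at least the lower density of `I` -/
lemma rel_index (I : Set ℕ) : lowerDensity I ≤ relLower {p : ℕ | Nat.primeCounting p ∈ I} := by
  have h1 := ratio_bdd (fun n : ℕ => (count I n : ℝ) / n) (ratio_nonneg I) (ratio_le_one I)
    Nat.primeCounting primeCounting_tendsto
  refine h1.trans (le_of_eq ?_)
  unfold relLower
  congr 1
  funext x
  have h2 : Pool.Agent.TH881.cnt {p | p.Prime ∧ p ∈ {p : ℕ | Nat.primeCounting p ∈ I}} x =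
      count I (Nat.primeCounting x) := count_index I x
  have h3 : Pool.Agent.TH881.cnt {p | p.Prime} x = Nat.primeCounting x := count_prime x
  rw [h2, h3]

open Pool.Agent.TH881.RG in
/-- the indices of the primes of `A` -/
lemma index_rel (A : Set ℕ) : ∃ I : Set ℕ, (∀ p : ℕ, p.Prime → (Nat.primeCounting p ∈ I ↔ p ∈ A)) ∧
    relLower A ≤ lowerDensity I := by
  classical
  obtain ⟨I, hI⟩ : ∃ I : Set ℕ, I = {k | Nat.nth Nat.Prime (k - 1) ∈ A} := ⟨_, rfl⟩
  have key : ∀ p : ℕ, p.Prime → Nat.nth Nat.Prime (Nat.primeCounting p - 1) = p := by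
    intro p hp
    have h1 : Nat.primeCounting p = Nat.count Nat.Prime p + 1 := by
      unfold Nat.primeCounting Nat.primeCounting'
      rw [Nat.count_succ, if_pos hp]
    rw [h1, Nat.add_sub_cancel]
    exact Nat.nth_count hp
  have hiff : ∀ p : ℕ, p.Prime → (Nat.primeCounting p ∈ I ↔ p ∈ A) := by
    intro p hp
    rw [hI, Set.mem_setOf_eq, key p hp]
  refine ⟨I, hiff, ?_⟩
  have hA : {p : ℕ | p.Prime ∧ p ∈ A} = {p | p.Prime ∧ p ∈ {p : ℕ | Nat.primeCounting p ∈ I}} := by
    ext p
    simp only [Set.mem_setOf_eq]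
    constructor
    · rintro ⟨h1, h2⟩
      exact ⟨h1, (hiff p h1).2 h2⟩
    · rintro ⟨h1, h2⟩
      exact ⟨h1, (hiff p h1).1 h2⟩
  have h0 : (fun x : ℕ => (Pool.Agent.TH881.cnt {p | p.Prime ∧ p ∈ A} x : ℝ) /
      (Pool.Agent.TH881.cnt {p | p.Prime} x : ℝ)) =
      fun x : ℕ => (count I (Nat.primeCounting x) : ℝ) / (Nat.primeCounting x : ℝ) := by
    funext x
    have h2 : Pool.Agent.TH881.cnt {p | p.Prime ∧ p ∈ A} x = count I (Nat.primeCounting x) := by
      rw [hA]
      exact count_index I x
    have h3 : Pool.Agent.TH881.cnt {p | p.Prime} x = Nat.primeCounting x := count_prime x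
    rw [h2, h3]
  unfold relLower
  rw [h0]
  have hnth : Tendsto (fun k : ℕ => Nat.nth Nat.Prime (k - 1)) atTop atTop := by
    apply tendsto_atTop_mono' atTop _ (tendsto_sub_atTop_nat 1)
    filter_upwards with k
    exact (Nat.nth_strictMono Nat.infinite_setOf_prime).le_apply (x := k - 1)
  have h1 := ratio_bdd (fun x : ℕ => (count I (Nat.primeCounting x) : ℝ) / (Nat.primeCounting x : ℝ))
    (fun x => ratio_nonneg I _) (fun x => ratio_le_one I _) _ hnth
  refine h1.trans (le_of_eq ?_)
  unfold lowerDensity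
  apply liminf_congr
  filter_upwards [eventually_ge_atTop 1] with k hk
  have h4 : (Nat.nth Nat.Prime (k - 1)).Prime := Nat.prime_nth_prime _
  have h5 : Nat.primeCounting (Nat.nth Nat.Prime (k - 1)) = k := by
    unfold Nat.primeCounting Nat.primeCounting'
    rw [Nat.count_succ, Nat.count_nth_of_infinite Nat.infinite_setOf_prime, if_pos h4]
    omega
  rw [h5]

open Pool.Agent.TH881.RG in
lemma exc_eq (I A : Set ℕ) (h : ∀ p : ℕ, p.Prime → (Nat.primeCounting p ∈ I ↔ p ∈ A)) :
    exceptions I = {n | Even n ∧ n ∉ oneSum A} := by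
  ext n
  unfold exceptions oneSum
  simp only [Set.mem_setOf_eq]
  refine and_congr_right fun _ => not_congr ?_
  constructor
  · rintro ⟨p, q, h1, h2, h3, h4⟩
    exact ⟨p, q, ⟨h1, (h p h1).1 h3⟩, h2, h4⟩
  · rintro ⟨p, q, ⟨h1, h3⟩, h2, h4⟩
    exact ⟨p, q, h1, h2, (h p h1).2 h3, h4⟩

/-- **One summand with index in a set of density near one.** For every `δ > 0` there is `η₀ > 0` such that for all
`0 < η ≤ η₀`: (1) if `I` is a set of lower density at least `1 - η`, then the even numbers which are not of the form `p + q`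
with primes `p`, `q` and `π(p) ∈ I` have upper density at most `exp (- exp ((2 C₂ e ^ (-γ) - δ) / η))`; (2) there is a set
`I` of lower density at least `1 - η` for which they have lower density at least
`exp (- exp ((2 C₂ e ^ (-γ) + δ) / η))`. -/
theorem result (δ : ℝ) (hδ : 0 < δ) : ∃ η₀ : ℝ, 0 < η₀ ∧ ∀ η : ℝ, 0 < η → η ≤ η₀ →
    (∀ I : Set ℕ, 1 - η ≤ lowerDensity I → upperDensity (exceptions I) ≤
      Real.exp (-Real.exp ((2 * C₂ * Real.exp (-Real.eulerMascheroniConstant) - δ) / η))) ∧
    ∃ I : Set ℕ, 1 - η ≤ lowerDensity I ∧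
      Real.exp (-Real.exp ((2 * C₂ * Real.exp (-Real.eulerMascheroniConstant) + δ) / η)) ≤
        lowerDensity (exceptions I) := by
  have hC : C₂ = Pool.Agent.TH881.RG.C2 := rfl
  have hD : 2 * C₂ * Real.exp (-Real.eulerMascheroniConstant) =
      2 * (Pool.Agent.TH881.RG.C2 * Real.exp (-Real.eulerMascheroniConstant)) := by
    rw [hC]; ring
  obtain ⟨η₀, h0, H⟩ := Pool.Agent.X15.RG.law_one δ hδ
  refine ⟨η₀, h0, fun η hη hηle => ?_⟩
  obtain ⟨hu, A, hA, hl⟩ := H η hη hηle
  rw [hD]
  constructor
  · intro I hI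
    have h1 := hu {p : ℕ | Nat.primeCounting p ∈ I} (hI.trans (rel_index I))
    rw [exc_eq I {p : ℕ | Nat.primeCounting p ∈ I} (fun p _ => Iff.rfl)]
    exact h1
  · obtain ⟨I, hI1, hI2⟩ := index_rel A
    refine ⟨I, hA.trans hI2, ?_⟩
    rw [exc_eq I A hI1]
    exact hl

end Pool.Agent.Results.MP_5d7b92_nt.IndexSetsOfDensityNearOne
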